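import Pool.Agent.helper27.TB.SpecI

set_option autoImplicit false

/-!
# Project TB, module ISV: vertex stabilisers of large powers
-/

namespace Pool.Agent.TB

open Pool.Agent.helper42.ML

theorem ISV (h3 : IS3_stmt) (h5 : IS5_stmt) (h7 : IS7_stmt) : ISV_stmt := by
  intro hRK n hTW V _ D θ s hs x c hc
  obtain ⟨m, hm, e⟩ := hRK n V D.T D.tree D.adj D.est D.nofix x
  obtain ⟨ψ, hψ⟩ := h3 θ s hs x c hc
  obtain ⟨k, hk, hT⟩ := h7 m (hTW m hm) e ψ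
  refine ⟨k, hk, fun j hj => ?_⟩
  intro _ hM
  obtain ⟨c', hc', hψ'⟩ := hψ (k * j)
  exact h5 (θ ^ (k * j)) (s ^ (k * j)) hM x c' hc' (ψ ^ (k * j)) hψ' (hT j hj)

end Pool.Agent.TB
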